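import Mathlib

/-! For connected regular graphs of diameter two with at least four distinct eigenvalues the
number of vertices at distance two exceeds the value of the top predistance polynomial. -/

open Polynomial Matrix

namespace Pool.Agent.Results.MP_87d29b_co.DiameterTwo

section Defs

variable {V : Type*} [Fintype V] [DecidableEq V] (G : SimpleGraph V) [DecidableRel G.Adj]

/-- The set of distinct adjacency eigenvalues. -/
def eigs : Set ℝ := spectrum ℝ (G.adjMatrix ℝ)

/-- `d`: the number of distinct eigenvalues minus one. -/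
noncomputable def dd : ℕ := (eigs G).ncard - 1

/-- `λ₀`: the largest eigenvalue. -/
noncomputable def lam0 : ℝ := sSup (eigs G)

/-- The inner product `(1/n) tr (f(A) g(A))` of polynomials. -/
noncomputable def ip (f g : ℝ[X]) : ℝ :=
  (Fintype.card V : ℝ)⁻¹ * (aeval (G.adjMatrix ℝ) f * aeval (G.adjMatrix ℝ) g).trace

/-- `p 0, ..., p d` are the predistance polynomials of `G`. -/
structure IsPredistance (p : ℕ → ℝ[X]) : Prop where
  deg : ∀ i ≤ dd G, (p i).degree = i
  orth : ∀ i ≤ dd G, ∀ j ≤ dd G, i ≠ j → ip G (p i) (p j) = 0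
  norm : ∀ i ≤ dd G, ip G (p i) (p i) = (p i).eval (lam0 G)

/-- Walk-regularity: the number `(A^l) x x` of closed walks of length `l` at `x` does not depend
on `x`. -/
def WalkRegular : Prop :=
  ∀ (l : ℕ) (x y : V), (G.adjMatrix ℝ ^ l) x x = (G.adjMatrix ℝ ^ l) y y

/-- `|Γ_D(x)|`: the number of vertices at distance `D` (the diameter) from `x`. -/
noncomputable def farCount (x : V) : ℕ := {y | G.dist x y = G.diam}.ncard

end Defs

section General

variable {V : Type*} [Fintype V] [DecidableEq V] {G : SimpleGraph V} [DecidableRel G.Adj]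

lemma aeval_mulVec_one {k : ℕ} (hreg : G.IsRegularOfDegree k) (f : ℝ[X]) :
    (aeval (G.adjMatrix ℝ) f) *ᵥ (fun _ => (1 : ℝ)) = fun _ => f.eval (k : ℝ) := by
  have h1 : (G.adjMatrix ℝ) *ᵥ (fun _ => (1 : ℝ)) = (k : ℝ) • (fun _ => (1 : ℝ)) := by
    ext v
    simp [G.adjMatrix_mulVec_apply, hreg v]
  induction f using Polynomial.induction_on' with
  | add p q hp hq =>
    rw [map_add, Matrix.add_mulVec, hp, hq]
    ext v
    simp
  | monomial n a =>
    have h2 : ∀ n : ℕ, (G.adjMatrix ℝ ^ n) *ᵥ (fun _ => (1 : ℝ)) = ((k : ℝ) ^ n) • (fun _ => (1 : ℝ)) := by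
      intro n
      induction n with
      | zero => simp
      | succ n ih =>
        rw [pow_succ, ← Matrix.mulVec_mulVec, h1, Matrix.mulVec_smul, ih, smul_smul]
        congr 1
        ring
    rw [aeval_monomial, ← Algebra.smul_def, Matrix.smul_mulVec, h2]
    ext v
    simp

lemma lam0_eq {k : ℕ} [Nonempty V] (hreg : G.IsRegularOfDegree k) : lam0 G = k := by
  have hmem : (k : ℝ) ∈ eigs G := by
    unfold eigs
    rw [← Matrix.spectrum_toLin', ← Module.End.hasEigenvalue_iff_mem_spectrum]
    apply Module.End.hasEigenvalue_of_hasEigenvector (x := fun _ => (1 : ℝ))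
    refine ⟨?_, ?_⟩
    · rw [Module.End.mem_eigenspace_iff, Matrix.toLin'_apply]
      ext v
      simp [G.adjMatrix_mulVec_apply, hreg v]
    · intro h
      have := congrFun h (Classical.arbitrary V)
      simp at this
  have hle : ∀ μ ∈ eigs G, μ ≤ k := by
    intro μ hμ
    unfold eigs at hμ
    rw [← Matrix.spectrum_toLin', ← Module.End.hasEigenvalue_iff_mem_spectrum] at hμ
    obtain ⟨i, hi⟩ := eigenvalue_mem_ball hμ
    rw [Metric.mem_closedBall, Real.dist_eq] at hi
    have h1 : ∑ j ∈ Finset.univ.erase i, ‖G.adjMatrix ℝ i j‖ = k := by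
      have h2 : ∑ j ∈ Finset.univ.erase i, ‖G.adjMatrix ℝ i j‖ = ∑ j, ‖G.adjMatrix ℝ i j‖ := by
        rw [← Finset.sum_erase_add _ _ (Finset.mem_univ i)]
        simp
      rw [h2]
      have h3 : ∀ j, ‖G.adjMatrix ℝ i j‖ = if G.Adj i j then 1 else 0 := by
        intro j
        rw [SimpleGraph.adjMatrix_apply]
        split_ifs <;> simp
      rw [Finset.sum_congr rfl fun j _ => h3 j, Finset.sum_boole, ← hreg i,
        ← SimpleGraph.card_neighborFinset_eq_degree]
      congr 2
      ext j
      simp
    rw [h1] at hi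
    simp only [SimpleGraph.adjMatrix_apply, SimpleGraph.irrefl, if_false, sub_zero] at hi
    exact (le_abs_self μ).trans hi
  exact le_antisymm (csSup_le ⟨_, hmem⟩ hle) (le_csSup ⟨_, hle⟩ hmem)

lemma aeval_symm (f : ℝ[X]) : (aeval (G.adjMatrix ℝ) f)ᵀ = aeval (G.adjMatrix ℝ) f := by
  induction f using Polynomial.induction_on' with
  | add p q hp hq => rw [map_add, Matrix.transpose_add, hp, hq]
  | monomial n a =>
    rw [aeval_monomial, ← Algebra.smul_def, Matrix.transpose_smul, Matrix.transpose_pow,
      SimpleGraph.transpose_adjMatrix]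

lemma trace_sq_nonneg {M : Matrix V V ℝ} (hM : Mᵀ = M) : 0 ≤ (M * M).trace := by
  have : (M * M).trace = ∑ i, ∑ j, M i j ^ 2 := by
    simp only [Matrix.trace, Matrix.diag, Matrix.mul_apply]
    refine Finset.sum_congr rfl fun i _ => Finset.sum_congr rfl fun j _ => ?_
    have : M j i = M i j := congrFun (congrFun hM i) j
    rw [this]; ring
  rw [this]
  positivity

lemma trace_sq_eq_zero {M : Matrix V V ℝ} (hM : Mᵀ = M) (h : (M * M).trace = 0) : M = 0 := by
  have h1 : (M * M).trace = ∑ i, ∑ j, M i j ^ 2 := by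
    simp only [Matrix.trace, Matrix.diag, Matrix.mul_apply]
    refine Finset.sum_congr rfl fun i _ => Finset.sum_congr rfl fun j _ => ?_
    have : M j i = M i j := congrFun (congrFun hM i) j
    rw [this]; ring
  rw [h1, Finset.sum_eq_zero_iff_of_nonneg (fun i _ => by positivity)] at h
  ext i j
  have h2 := h i (Finset.mem_univ i)
  rw [Finset.sum_eq_zero_iff_of_nonneg (fun i _ => by positivity)] at h2
  simpa using h2 j (Finset.mem_univ j)

lemma finite_eigs : (eigs G).Finite := Matrix.finite_real_spectrum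

lemma aeval_ne_zero (f : ℝ[X]) (hf : f ≠ 0) (hd : f.natDegree < (eigs G).ncard) :
    aeval (G.adjMatrix ℝ) f ≠ 0 := by
  intro h0
  have hsub : eigs G ⊆ (f.roots.toFinset : Set ℝ) := by
    intro μ hμ
    have h1 : f.eval μ ∈ spectrum ℝ (aeval (G.adjMatrix ℝ) f) :=
      spectrum.subset_polynomial_aeval _ f ⟨μ, hμ, rfl⟩
    rw [h0] at h1
    have hne : Nonempty V := by
      by_contra hV
      rw [not_nonempty_iff] at hV
      have : eigs G = ∅ := by
        unfold eigs
        exact spectrum.of_subsingleton _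
      rw [this] at hμ
      exact hμ
    rw [spectrum.zero_eq, Set.mem_singleton_iff] at h1
    simp only [Finset.mem_coe, Multiset.mem_toFinset, Polynomial.mem_roots hf]
    exact h1
  have h2 := Set.ncard_le_ncard hsub (Finset.finite_toSet _)
  rw [Set.ncard_coe_finset] at h2
  have h3 := Multiset.toFinset_card_le f.roots
  have h4 := f.card_roots'
  omega

lemma farCount_eq {k : ℕ} (hconn : G.Connected) (hreg : G.IsRegularOfDegree k)
    (hD : G.diam = 2) (x : V) : farCount G x + k + 1 = Fintype.card V := by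
  have hle : ∀ y, G.dist x y ≤ 2 := by
    intro y
    rw [← hD]
    exact SimpleGraph.dist_le_diam (G.ediam_ne_top_of_diam_ne_zero (by rw [hD]; norm_num))
  have h1 : {y | G.dist x y = G.diam} = ((insert x (G.neighborFinset x))ᶜ : Finset V) := by
    ext y
    simp only [Set.mem_ofPred_eq, hD, Finset.coe_compl, Finset.coe_insert,
      SimpleGraph.coe_neighborFinset, Set.mem_compl_iff, Set.mem_insert_iff,
      SimpleGraph.mem_neighborSet, not_or]
    constructor
    · intro h
      refine ⟨?_, ?_⟩
      · rintro rfl; simp at h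
      · intro hadj
        rw [SimpleGraph.dist_eq_one_iff_adj.2 hadj] at h
        omega
    · rintro ⟨h1, h2⟩
      have h3 := hle y
      have h4 : G.dist x y ≠ 0 := by
        rw [Ne, hconn.dist_eq_zero_iff]
        exact fun h => h1 h.symm
      have h5 : G.dist x y ≠ 1 := by
        rw [Ne, SimpleGraph.dist_eq_one_iff_adj]
        exact h2
      omega
  unfold farCount
  rw [h1, Set.ncard_coe_finset, Finset.card_compl, Finset.card_insert_of_notMem (by simp),
    SimpleGraph.card_neighborFinset_eq_degree, hreg x]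
  have h2 : (insert x (G.neighborFinset x)).card ≤ Fintype.card V := Finset.card_le_univ _
  rw [Finset.card_insert_of_notMem (by simp),
    SimpleGraph.card_neighborFinset_eq_degree, hreg x] at h2
  omega

/-- In a connected regular graph of diameter two with more than three distinct eigenvalues the
inequality fails at every vertex. -/
theorem general {k : ℕ} (hconn : G.Connected) (hreg : G.IsRegularOfDegree k)
    (hD : G.diam = 2) (hd : 2 < dd G) (p : ℕ → ℝ[X]) (hp : IsPredistance G p) (x : V) :
    (p (dd G)).eval (k : ℝ) < farCount G x := by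
  have hne : Nonempty V := ⟨x⟩
  have hlam := lam0_eq hreg
  have hn : (0 : ℝ) < Fintype.card V := by exact_mod_cast Fintype.card_pos
  set A := G.adjMatrix ℝ with hA
  set n : ℝ := (Fintype.card V : ℝ) with hndef
  set d := dd G with hddef
  have hcard : d + 1 = (eigs G).ncard := by
    have : d = (eigs G).ncard - 1 := rfl
    omega
  -- values of the inner product with `J`
  have hJ : ∀ f : ℝ[X], (n)⁻¹ * ((Matrix.of fun _ _ => (1 : ℝ)) * aeval A f).trace =
      f.eval (k : ℝ) := by
    intro f
    have h1 : ((Matrix.of fun _ _ => (1 : ℝ)) * aeval A f : Matrix V V ℝ).trace =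
        ∑ i, ((aeval A f) *ᵥ (fun _ => (1 : ℝ))) i := by
      simp only [Matrix.trace, Matrix.diag, Matrix.mul_apply, Matrix.mulVec, dotProduct,
        Matrix.of_apply, one_mul, mul_one]
      rw [Finset.sum_comm]
    rw [h1, aeval_mulVec_one hreg]
    simp only [Finset.sum_const, Finset.card_univ, nsmul_eq_mul]
    rw [← hndef]
    field_simp
  -- degree zero
  have hdeg := hp.deg
  have hnorm := hp.norm
  rw [hlam] at hnorm
  have h0 : (p 0).eval (k : ℝ) = 1 := by
    obtain ⟨c, hc⟩ : ∃ c, p 0 = C c := ⟨_, eq_C_of_degree_le_zero (hdeg 0 (by omega)).le⟩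
    have h1 := hnorm 0 (by omega)
    have hc0 : c ≠ 0 := by
      intro h
      have := hdeg 0 (by omega)
      rw [hc, h, C_0, degree_zero] at this
      exact absurd this (by simp)
    have h2 : ip G (p 0) (p 0) = c ^ 2 := by
      unfold ip
      rw [hc]
      simp only [aeval_C, Algebra.algebraMap_eq_smul_one, Matrix.smul_mul, Matrix.mul_smul,
        one_mul, Matrix.trace_smul, Matrix.trace_one, smul_eq_mul]
      rw [← hndef]
      field_simp
    rw [h2, hc, eval_C] at h1
    rw [hc, eval_C]
    have : c * (c - 1) = 0 := by linarith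
    rcases mul_eq_zero.1 this with h | h
    · exact absurd h hc0
    · linarith
  have h1 : (p 1).eval (k : ℝ) = k := by
    obtain ⟨a, b, ha⟩ : ∃ a b, p 1 = C a * X + C b :=
      ⟨_, _, eq_X_add_C_of_degree_le_one (hdeg 1 (by omega)).le⟩
    have h2 := hnorm 1 (by omega)
    have h3 := hp.orth 1 (by omega) 0 (by omega) (by omega)
    obtain ⟨c, hc⟩ : ∃ c, p 0 = C c := ⟨_, eq_C_of_degree_le_zero (hdeg 0 (by omega)).le⟩
    have hc0 : c = 1 := by rw [hc, eval_C] at h0; exact h0
    have ha0 : a ≠ 0 := by
      intro h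
      have h4 := hdeg 1 (by omega)
      rw [ha, h, C_0, zero_mul, zero_add] at h4
      have := degree_C_le (a := b)
      rw [h4] at this
      exact absurd this (by decide)
    have htr : A.trace = 0 := by rw [hA]; exact SimpleGraph.trace_adjMatrix ℝ G
    have htr2 : (A * A).trace = n * k := by
      simp only [Matrix.trace, Matrix.diag]
      rw [hA]
      simp only [SimpleGraph.adjMatrix_mul_self_apply_self, hreg _]
      simp [hndef]
    have hb : b = 0 := by
      unfold ip at h3
      rw [ha, hc, hc0] at h3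
      simp only [map_one, mul_one, map_add, map_mul, aeval_C, aeval_X,
        Algebra.algebraMap_eq_smul_one, Matrix.smul_mul, one_mul, Matrix.trace_add,
        Matrix.trace_smul, Matrix.trace_one, smul_eq_mul] at h3
      rw [← hA, htr] at h3
      field_simp at h3
      simpa using h3
    have h4 : ip G (p 1) (p 1) = a ^ 2 * k := by
      unfold ip
      rw [ha, hb]
      simp only [map_zero, add_zero, map_mul, aeval_C, aeval_X,
        Algebra.algebraMap_eq_smul_one, Matrix.smul_mul, one_mul, Matrix.mul_smul,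
        Matrix.trace_smul, smul_eq_mul]
      rw [← hA, htr2, ← hndef]
      field_simp
    rw [h4, ha, hb] at h2
    simp only [eval_add, eval_mul, eval_C, eval_X, add_zero] at h2
    rw [ha, hb]
    simp only [eval_add, eval_mul, eval_C, eval_X, add_zero]
    have h5 : (a * k) * (a - 1) = 0 := by linarith
    rcases mul_eq_zero.1 h5 with h | h
    · rcases mul_eq_zero.1 h with h | h
      · exact absurd h ha0
      · rw [h]; ring
    · have : a = 1 := by linarith
      rw [this]; ring
  have h2 : 0 < (p 2).eval (k : ℝ) := by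
    rw [← hnorm 2 (by omega)]
    have hsym := aeval_symm (G := G) (p 2)
    have hnn := trace_sq_nonneg hsym
    have hnz : (aeval (G.adjMatrix ℝ) (p 2) * aeval (G.adjMatrix ℝ) (p 2)).trace ≠ 0 := by
      intro h
      have h3 := trace_sq_eq_zero hsym h
      have hdeg2 := hdeg 2 (by omega)
      have hne2 : p 2 ≠ 0 := by
        intro h
        rw [h, degree_zero] at hdeg2
        exact absurd hdeg2 (by simp)
      have hnat : (p 2).natDegree = 2 := natDegree_eq_of_degree_eq_some hdeg2
      exact aeval_ne_zero (p 2) hne2 (by omega) h3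
    unfold ip
    have : 0 < (aeval (G.adjMatrix ℝ) (p 2) * aeval (G.adjMatrix ℝ) (p 2)).trace :=
      lt_of_le_of_ne hnn (Ne.symm hnz)
    positivity
  -- Bessel
  have hbessel : (p 0).eval (k : ℝ) + (p 1).eval (k : ℝ) + (p 2).eval (k : ℝ) +
      (p d).eval (k : ℝ) ≤ n := by
    set J : Matrix V V ℝ := Matrix.of fun _ _ => (1 : ℝ) with hJdef
    set q := p 0 + p 1 + p 2 + p d with hq
    have hsym : (J - aeval (G.adjMatrix ℝ) q)ᵀ = J - aeval (G.adjMatrix ℝ) q := by
      rw [Matrix.transpose_sub, aeval_symm]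
      rfl
    have h3 := trace_sq_nonneg hsym
    have hcomm : (aeval (G.adjMatrix ℝ) q * J).trace = (J * aeval (G.adjMatrix ℝ) q).trace :=
      Matrix.trace_mul_comm _ _
    have hJJ : (J * J).trace = n * n := by
      simp only [hJdef, Matrix.trace, Matrix.diag, Matrix.mul_apply, Matrix.of_apply, mul_one,
        Finset.sum_const, Finset.card_univ, nsmul_eq_mul]
      rw [← hndef]
    have hJq : (J * aeval (G.adjMatrix ℝ) q).trace = n * q.eval (k : ℝ) := by
      rw [← hJ q]
      field_simp
      rw [hA]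
    have hqq : (aeval (G.adjMatrix ℝ) q * aeval (G.adjMatrix ℝ) q).trace =
        n * q.eval (k : ℝ) := by
      have hij : ∀ i j, i ≤ d → j ≤ d →
          (aeval (G.adjMatrix ℝ) (p i) * aeval (G.adjMatrix ℝ) (p j)).trace =
          if i = j then n * (p i).eval (k : ℝ) else 0 := by
        intro i j hi hj
        split_ifs with h
        · subst h
          have := hnorm i hi
          unfold ip at this
          rw [← this, ← hndef]
          field_simp
        · have := hp.orth i hi j hj h
          unfold ip at this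
          rcases mul_eq_zero.1 this with h4 | h4
          · exact absurd h4 (by positivity)
          · exact h4
      rw [hq]
      simp only [map_add, mul_add, add_mul, Matrix.trace_add, eval_add]
      rw [hij 0 0 (by omega) (by omega), hij 0 1 (by omega) (by omega),
        hij 0 2 (by omega) (by omega), hij 0 d (by omega) le_rfl,
        hij 1 0 (by omega) (by omega), hij 1 1 (by omega) (by omega),
        hij 1 2 (by omega) (by omega), hij 1 d (by omega) le_rfl,
        hij 2 0 (by omega) (by omega), hij 2 1 (by omega) (by omega),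
        hij 2 2 (by omega) (by omega), hij 2 d (by omega) le_rfl,
        hij d 0 le_rfl (by omega), hij d 1 le_rfl (by omega),
        hij d 2 le_rfl (by omega), hij d d le_rfl le_rfl]
      have e1 : ¬ (0 = d) := by omega
      have e2 : ¬ (1 = d) := by omega
      have e3 : ¬ (2 = d) := by omega
      have e4 : ¬ (d = 0) := by omega
      have e5 : ¬ (d = 1) := by omega
      have e6 : ¬ (d = 2) := by omega
      simp [e1, e2, e3, e4, e5, e6]
    have h4 : ((J - aeval (G.adjMatrix ℝ) q) * (J - aeval (G.adjMatrix ℝ) q)).trace =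
        n * n - n * q.eval (k : ℝ) := by
      rw [sub_mul, mul_sub, mul_sub]
      simp only [Matrix.trace_sub]
      rw [hJJ, hcomm, hJq, hqq]
      ring
    rw [h4] at h3
    have h5 : 0 ≤ n * (n - q.eval (k : ℝ)) := by linarith
    have h6 := nonneg_of_mul_nonneg_right h5 hn
    rw [hq] at h6
    simp only [eval_add] at h6
    linarith
  have h3 : ((farCount G x : ℕ) : ℝ) + k + 1 = n := by
    rw [hndef, ← farCount_eq hconn hreg hD x]
    push_cast
    ring
  linarith

end General

section Prism

/-- The triangular prism `K₃ □ K₂`, as the Cayley graph of `ℤ/6` with connection set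
`{2, 3, 4}`. -/
def prism : SimpleGraph (ZMod 6) where
  Adj x y := y - x = 2 ∨ y - x = 3 ∨ y - x = 4
  symm := ⟨by decide⟩
  loopless := ⟨by decide⟩

instance : DecidableRel prism.Adj := fun x y =>
  inferInstanceAs (Decidable (y - x = 2 ∨ y - x = 3 ∨ y - x = 4))

lemma prism_int : (prism.adjMatrix ℤ) * (prism.adjMatrix ℤ) * (prism.adjMatrix ℤ) *
    (prism.adjMatrix ℤ) = 2 * (prism.adjMatrix ℤ * prism.adjMatrix ℤ * prism.adjMatrix ℤ) +
      5 * (prism.adjMatrix ℤ * prism.adjMatrix ℤ) - 6 * prism.adjMatrix ℤ := by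
  decide +kernel

lemma prism_map : prism.adjMatrix ℝ = (Int.castRingHom ℝ).mapMatrix (prism.adjMatrix ℤ) := by
  ext i j
  simp [SimpleGraph.adjMatrix_apply]

lemma prism_rel : (prism.adjMatrix ℝ) ^ 4 = (2 : ℝ) • (prism.adjMatrix ℝ) ^ 3 +
    (5 : ℝ) • (prism.adjMatrix ℝ) ^ 2 - (6 : ℝ) • prism.adjMatrix ℝ := by
  have h := congrArg (Int.castRingHom ℝ).mapMatrix prism_int
  simp only [map_sub, map_add, map_mul, map_ofNat] at h
  rw [← prism_map] at h
  have e : ∀ (c : ℝ) (M : Matrix (ZMod 6) (ZMod 6) ℝ), c • M = algebraMap ℝ _ c * M := by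
    intro c M
    exact Algebra.smul_def c M
  rw [e, e, e]
  simp only [map_ofNat]
  calc (prism.adjMatrix ℝ) ^ 4 = (prism.adjMatrix ℝ) * (prism.adjMatrix ℝ) * (prism.adjMatrix ℝ) *
    (prism.adjMatrix ℝ) := by noncomm_ring
    _ = _ := h
    _ = _ := by rw [pow_succ, pow_two]

lemma prism_tr2 : ((prism.adjMatrix ℝ) ^ 2).trace = 18 := by
  have h : ((prism.adjMatrix ℤ) * (prism.adjMatrix ℤ)).trace = 18 := by decide +kernel
  have h2 := congrArg (Int.castRingHom ℝ) h
  rw [prism_map, pow_two, ← map_mul]
  rw [show ((Int.castRingHom ℝ).mapMatrix (prism.adjMatrix ℤ * prism.adjMatrix ℤ)).trace =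
    (Int.castRingHom ℝ) (prism.adjMatrix ℤ * prism.adjMatrix ℤ).trace from
      (AddMonoidHom.map_trace (Int.castRingHom ℝ) _).symm, h]
  simp

lemma prism_tr3 : ((prism.adjMatrix ℝ) ^ 3).trace = 12 := by
  have h : ((prism.adjMatrix ℤ) * (prism.adjMatrix ℤ) * (prism.adjMatrix ℤ)).trace = 12 := by
    decide +kernel
  rw [prism_map, pow_succ, pow_two, ← map_mul, ← map_mul]
  rw [show ((Int.castRingHom ℝ).mapMatrix
      (prism.adjMatrix ℤ * prism.adjMatrix ℤ * prism.adjMatrix ℤ)).trace =
    (Int.castRingHom ℝ) (prism.adjMatrix ℤ * prism.adjMatrix ℤ * prism.adjMatrix ℤ).trace from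
      (AddMonoidHom.map_trace (Int.castRingHom ℝ) _).symm, h]
  simp

lemma prism_tr (n : ℕ) : ((prism.adjMatrix ℝ) ^ n).trace =
    3 ^ n + 1 + 2 * 0 ^ n + 2 * (-2) ^ n := by
  induction n using Nat.strong_induction_on with
  | _ n ih =>
    match n, ih with
    | 0, _ => simp [ZMod.card]; norm_num
    | 1, _ => rw [pow_one, SimpleGraph.trace_adjMatrix]; norm_num
    | 2, _ => rw [prism_tr2]; norm_num
    | 3, _ => rw [prism_tr3]; norm_num
    | (m + 4), ih =>
      have h : (prism.adjMatrix ℝ) ^ (m + 4) = (2 : ℝ) • (prism.adjMatrix ℝ) ^ (m + 3) +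
          (5 : ℝ) • (prism.adjMatrix ℝ) ^ (m + 2) - (6 : ℝ) • (prism.adjMatrix ℝ) ^ (m + 1) := by
        rw [pow_add, prism_rel, mul_sub, mul_add, Matrix.mul_smul, Matrix.mul_smul,
          Matrix.mul_smul, ← pow_add, ← pow_add, ← pow_succ]
      rw [h, Matrix.trace_sub, Matrix.trace_add, Matrix.trace_smul, Matrix.trace_smul,
        Matrix.trace_smul, ih _ (by omega), ih _ (by omega), ih _ (by omega)]
      simp only [smul_eq_mul, pow_add]
      rcases Nat.eq_zero_or_pos m with rfl | hm
      · norm_num
      · rw [zero_pow (by omega)]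
        ring

lemma prism_trace (h : ℝ[X]) : (aeval (prism.adjMatrix ℝ) h).trace =
    h.eval 3 + h.eval 1 + 2 * h.eval 0 + 2 * h.eval (-2) := by
  induction h using Polynomial.induction_on' with
  | add p q hp hq =>
    rw [map_add, Matrix.trace_add, hp, hq]
    simp only [eval_add]
    ring
  | monomial n a =>
    rw [aeval_monomial, ← Algebra.smul_def, Matrix.trace_smul, prism_tr]
    simp only [eval_monomial, smul_eq_mul, one_pow]
    ring

lemma prism_ip (f g : ℝ[X]) : ip prism f g =
    (f.eval 3 * g.eval 3 + f.eval 1 * g.eval 1 + 2 * (f.eval 0 * g.eval 0) +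
      2 * (f.eval (-2) * g.eval (-2))) / 6 := by
  unfold ip
  rw [← map_mul, prism_trace]
  simp only [eval_mul, ZMod.card]
  push_cast
  ring

lemma prism_reg : prism.IsRegularOfDegree 3 := by
  intro x
  revert x
  decide +kernel

lemma eig_mem {v : ZMod 6 → ℝ} {μ : ℝ} (hv : v 0 ≠ 0)
    (h : ∀ x, v (x + 2) + v (x + 3) + v (x + 4) = μ * v x) : μ ∈ eigs prism := by
  unfold eigs
  rw [← Matrix.spectrum_toLin', ← Module.End.hasEigenvalue_iff_mem_spectrum]
  apply Module.End.hasEigenvalue_of_hasEigenvector (x := v)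
  refine ⟨?_, fun h0 => hv (by rw [h0]; rfl)⟩
  rw [Module.End.mem_eigenspace_iff, Matrix.toLin'_apply]
  ext x
  rw [prism.adjMatrix_mulVec_apply]
  have hN : prism.neighborFinset x = {x + 2, x + 3, x + 4} := by
    revert x
    decide +kernel
  rw [hN, Finset.sum_insert, Finset.sum_insert, Finset.sum_singleton]
  · rw [Pi.smul_apply, smul_eq_mul, ← h x]
    ring
  · revert x; decide +kernel
  · revert x; decide +kernel

lemma prism_eigs : eigs prism = {3, 1, 0, -2} := by
  ext μ
  constructor
  · intro hμ
    have h1 : (X ^ 4 - C 2 * X ^ 3 - C 5 * X ^ 2 + C 6 * X : ℝ[X]).eval μ ∈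
        spectrum ℝ (aeval (prism.adjMatrix ℝ)
          (X ^ 4 - C 2 * X ^ 3 - C 5 * X ^ 2 + C 6 * X : ℝ[X])) :=
      spectrum.subset_polynomial_aeval _ _ ⟨μ, hμ, rfl⟩
    have h2 : aeval (prism.adjMatrix ℝ) (X ^ 4 - C 2 * X ^ 3 - C 5 * X ^ 2 + C 6 * X : ℝ[X]) = 0 := by
      simp only [map_add, map_sub, map_mul, map_pow, aeval_X, aeval_C, ← Algebra.smul_def]
      rw [prism_rel]
      abel
    rw [h2, spectrum.zero_eq, Set.mem_singleton_iff] at h1
    simp only [eval_add, eval_sub, eval_mul, eval_pow, eval_X, eval_C] at h1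
    have h3 : (μ - 3) * ((μ - 1) * (μ * (μ + 2))) = 0 := by linarith
    rcases mul_eq_zero.1 h3 with h | h
    · left; linarith
    rcases mul_eq_zero.1 h with h | h
    · right; left; linarith
    rcases mul_eq_zero.1 h with h | h
    · right; right; left; exact h
    · right; right; right; simp only [Set.mem_singleton_iff]; linarith
  · rintro (rfl | rfl | rfl | h)
    · exact eig_mem (v := fun _ => 1) one_ne_zero (fun x => by norm_num)
    · exact eig_mem (v := ![1, -1, 1, -1, 1, -1]) (by simp)
        (fun x => by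
          fin_cases x <;> simp [ZMod] <;> norm_num)
    · exact eig_mem (v := ![1, -1, 0, 1, -1, 0]) (by simp)
        (fun x => by
          fin_cases x <;> simp [ZMod] <;> norm_num)
    · rw [Set.mem_singleton_iff] at h
      subst h
      exact eig_mem (v := ![1, 1, 0, -1, -1, 0]) (by simp)
        (fun x => by
          fin_cases x <;> simp [ZMod] <;> norm_num)

lemma prism_dd : dd prism = 3 := by
  unfold dd
  rw [prism_eigs, Set.ncard_insert_of_notMem, Set.ncard_insert_of_notMem,
    Set.ncard_insert_of_notMem, Set.ncard_singleton]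
  · norm_num
  · norm_num
  · norm_num

lemma prism_near : ∀ x y : ZMod 6, ∃ w, (x = w ∨ prism.Adj x w) ∧ (w = y ∨ prism.Adj w y) := by
  decide +kernel

lemma prism_conn : prism.Connected := by
  have : Nonempty (ZMod 6) := ⟨0⟩
  refine SimpleGraph.Connected.mk fun x y => ?_
  obtain ⟨w, h1, h2⟩ := prism_near x y
  have h1' : prism.Reachable x w := by
    rcases h1 with rfl | h1
    · exact SimpleGraph.Reachable.refl _
    · exact h1.reachable
  have h2' : prism.Reachable w y := by
    rcases h2 with rfl | h2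
    · exact SimpleGraph.Reachable.refl _
    · exact h2.reachable
  exact h1'.trans h2'

lemma prism_dist_le (x y : ZMod 6) : prism.dist x y ≤ 2 := by
  obtain ⟨w, h1, h2⟩ := prism_near x y
  have h1' : prism.dist x w ≤ 1 := by
    rcases h1 with rfl | h1
    · simp
    · exact (SimpleGraph.dist_eq_one_iff_adj.2 h1).le
  have h2' : prism.dist w y ≤ 1 := by
    rcases h2 with rfl | h2
    · simp
    · exact (SimpleGraph.dist_eq_one_iff_adj.2 h2).le
  have := prism_conn.dist_triangle (u := x) (v := w) (w := y)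
  omega

lemma prism_diam : prism.diam = 2 := by
  have : Nonempty (ZMod 6) := ⟨0⟩
  have : Nontrivial (ZMod 6) := ⟨0, 1, by decide⟩
  obtain ⟨u, v, huv⟩ := prism.exists_dist_eq_diam
  have h1 : prism.diam ≤ 2 := by rw [← huv]; exact prism_dist_le u v
  have h2 : prism.dist 0 1 ≤ prism.diam :=
    SimpleGraph.dist_le_diam (SimpleGraph.connected_iff_ediam_ne_top.1 prism_conn)
  have h3 : prism.dist 0 1 ≠ 0 := by
    rw [Ne, prism_conn.dist_eq_zero_iff]
    decide
  have h4 : prism.dist 0 1 ≠ 1 := by
    rw [Ne, SimpleGraph.dist_eq_one_iff_adj]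
    decide
  omega

lemma prism_walkRegular : WalkRegular prism := by
  intro l x y
  have h1 : ∀ a : ZMod 6, (prism.adjMatrix ℝ).submatrix (Equiv.addRight a) (Equiv.addRight a) =
      prism.adjMatrix ℝ := by
    intro a
    ext i j
    simp only [Matrix.submatrix_apply, Equiv.coe_addRight, SimpleGraph.adjMatrix_apply]
    have : prism.Adj (i + a) (j + a) ↔ prism.Adj i j := by
      change (j + a - (i + a) = 2 ∨ j + a - (i + a) = 3 ∨ j + a - (i + a) = 4) ↔
        (j - i = 2 ∨ j - i = 3 ∨ j - i = 4)
      rw [add_sub_add_right_eq_sub]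
    simp [this]
  have h2 : ∀ (a : ZMod 6) (l : ℕ),
      (prism.adjMatrix ℝ ^ l).submatrix (Equiv.addRight a) (Equiv.addRight a) =
      prism.adjMatrix ℝ ^ l := by
    intro a l
    induction l with
    | zero =>
      rw [pow_zero]
      exact Matrix.submatrix_one_equiv _
    | succ l ih =>
      rw [pow_succ, ← Matrix.submatrix_mul_equiv _ _ _ (Equiv.addRight a) _, ih, h1 a]
  have h3 := congrFun (congrFun (h2 (y - x) l) x) x
  simp only [Matrix.submatrix_apply, Equiv.coe_addRight, add_sub_cancel] at h3
  exact h3.symm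

/-- the predistance polynomials of the prism -/
noncomputable def pp : ℕ → ℝ[X]
  | 0 => 1
  | 1 => X
  | 2 => C (6 / 13) * X ^ 2 + C (-4 / 13) * X + C (-18 / 13)
  | 3 => C (1 / 5) * X ^ 3 + C (-17 / 65) * X ^ 2 + C (-71 / 65) * X + C (5 / 13)
  | _ => 0

lemma pp_deg : ∀ i ≤ 3, (pp i).degree = i := by
  intro i hi
  interval_cases i
  · simp [pp]
  · simp [pp]
  · have h : (6 / 13 : ℝ) ≠ 0 := by norm_num
    simp only [pp]
    compute_degree!
  · have h : (1 / 5 : ℝ) ≠ 0 := by norm_num
    simp only [pp]
    compute_degree!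

lemma pp_pred : IsPredistance prism pp := by
  have hlam : lam0 prism = 3 := by
    have := lam0_eq prism_reg
    rw [this]; norm_num
  refine ⟨?_, ?_, ?_⟩
  · rw [prism_dd]; exact pp_deg
  · rw [prism_dd]
    intro i hi j hj hij
    rw [prism_ip]
    interval_cases i <;> interval_cases j <;>
      first
      | exact absurd rfl hij
      | (simp only [pp, eval_add, eval_mul, eval_pow, eval_C, eval_X, eval_one]; norm_num)
  · rw [prism_dd, hlam]
    intro i hi
    rw [prism_ip]
    interval_cases i <;>
      (simp only [pp, eval_add, eval_mul, eval_pow, eval_C, eval_X, eval_one]; norm_num)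

end Prism

/-- In every connected regular graph of diameter `2` with `d > 2`, every vertex `x` has
`|Γ_2(x)| > p_d(k)`; and the triangular prism is a walk-regular (and 3-regular) example, with
`D = 2 < 3 = d`, `|Γ_2(x)| = 2` for all `x` and `p_3(3) = 2/13`. -/
theorem result :
    (∀ (V : Type) [Fintype V] [DecidableEq V] (G : SimpleGraph V) [DecidableRel G.Adj] (k : ℕ),
      G.Connected → G.IsRegularOfDegree k → G.diam = 2 → 2 < dd G →
      ∀ p, IsPredistance G p → ∀ x, (p (dd G)).eval (k : ℝ) < farCount G x) ∧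
    (∃ (V : Type) (_ : Fintype V) (_ : DecidableEq V) (G : SimpleGraph V)
      (_ : DecidableRel G.Adj) (p : ℕ → ℝ[X]),
      G.Connected ∧ WalkRegular G ∧ G.IsRegularOfDegree 3 ∧ G.diam = 2 ∧ dd G = 3 ∧
      IsPredistance G p ∧ (p (dd G)).eval (3 : ℝ) = 2 / 13 ∧ (∀ x, farCount G x = 2) ∧
      ∀ x, (p (dd G)).eval (3 : ℝ) < farCount G x) := by
  refine ⟨fun V _ _ G _ k hconn hreg hD hd p hp x => general hconn hreg hD hd p hp x, ?_⟩
  have hf : ∀ x, farCount prism x = 2 := by
    intro x
    have := farCount_eq prism_conn prism_reg prism_diam x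
    rw [ZMod.card] at this
    omega
  have he : (pp (dd prism)).eval (3 : ℝ) = 2 / 13 := by
    rw [prism_dd]
    simp only [pp, eval_add, eval_mul, eval_pow, eval_C, eval_X]
    norm_num
  refine ⟨ZMod 6, inferInstance, inferInstance, prism, inferInstance, pp, prism_conn,
    prism_walkRegular, prism_reg, prism_diam, prism_dd, pp_pred, he, hf, ?_⟩
  intro x
  rw [he, hf x]
  norm_num

end Pool.Agent.Results.MP_87d29b_co.DiameterTwo
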